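import Pool.Agent.Q227.RL.Lines

namespace Pool.Agent.Q227.RL

lemma half_sum (k : ℕ) :
    ∑ l ∈ Finset.Icc 2 (k + 1), ((1 : ℝ) / 2) ^ l ≤ 1 / 2 - (1 / 2) ^ (k + 1) := by
  induction k with
  | zero => simp
  | succ k ih =>
    rw [Finset.sum_Icc_succ_top (by omega)]
    have e : ((1 : ℝ) / 2) ^ (k + 1 + 1) = (1 / 2) ^ (k + 1) / 2 := by
      rw [pow_succ]; ring
    rw [e]
    linarith

lemma term_bound {d m : ℕ} (hd : 4 ≤ d) (hm : 2 ≤ m) (l : ℕ) (hl : 2 ≤ l) :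
    ((VV d m).card : ℝ) * (sMax (VV d m) l : ℝ) / (((m ^ 3 : ℕ) : ℝ)) ^ (l + 1)
      ≤ 256 * (m : ℝ) ^ 9 * (1 / 2) ^ l := by
  have hm1 : 1 ≤ m := by omega
  have hmR : (2 : ℝ) ≤ m := by exact_mod_cast hm
  have hm0 : (0 : ℝ) < m := by linarith
  rw [card_VV hd]
  push_cast
  rcases Nat.lt_or_ge l 4 with h4 | h4
  · rcases (show l = 2 ∨ l = 3 by omega) with rfl | rfl
    · have h := sMax_two hd hm1
      have h' : (sMax (VV d m) 2 : ℝ) ≤ 4 * (m : ℝ) ^ 5 := by exact_mod_cast h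
      rw [div_le_iff₀ (by positivity)]
      have h8 : (m : ℝ) ^ 17 ≤ (m : ℝ) ^ 18 := by
        apply pow_le_pow_right₀ (by linarith) (by norm_num)
      calc 4 * (m : ℝ) ^ 12 * (sMax (VV d m) 2 : ℝ) ≤ 4 * (m : ℝ) ^ 12 * (4 * (m : ℝ) ^ 5) := by
            gcongr
        _ = 16 * (m : ℝ) ^ 17 := by ring
        _ ≤ 64 * (m : ℝ) ^ 18 := by nlinarith [pow_pos hm0 17, pow_pos hm0 18]
        _ = 256 * (m : ℝ) ^ 9 * (1 / 2) ^ 2 * ((m : ℝ) ^ 3) ^ (2 + 1) := by ring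
    · have h := sMax_three hd hm1
      have h' : (sMax (VV d m) 3 : ℝ) ≤ 4 * (m : ℝ) ^ 9 := by exact_mod_cast h
      rw [div_le_iff₀ (by positivity)]
      calc 4 * (m : ℝ) ^ 12 * (sMax (VV d m) 3 : ℝ) ≤ 4 * (m : ℝ) ^ 12 * (4 * (m : ℝ) ^ 9) := by
            gcongr
        _ = 16 * (m : ℝ) ^ 21 := by ring
        _ ≤ 32 * (m : ℝ) ^ 21 := by nlinarith [pow_pos hm0 21]
        _ = 256 * (m : ℝ) ^ 9 * (1 / 2) ^ 3 * ((m : ℝ) ^ 3) ^ (3 + 1) := by ring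
  · have h := sMax_le_card (VV d m) l
    rw [card_VV hd] at h
    have h' : (sMax (VV d m) l : ℝ) ≤ 4 * (m : ℝ) ^ 12 := by exact_mod_cast h
    rw [div_le_iff₀ (by positivity)]
    obtain ⟨k, rfl⟩ := Nat.exists_eq_add_of_le h4
    have h2 : (1 : ℝ) ≤ (1 / 2) ^ k * ((m : ℝ) ^ 3) ^ k := by
      rw [← mul_pow]
      apply one_le_pow₀
      have : (2 : ℝ) ^ 3 ≤ (m : ℝ) ^ 3 := pow_le_pow_left₀ (by norm_num) hmR 3
      linarith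
    calc 4 * (m : ℝ) ^ 12 * (sMax (VV d m) (4 + k) : ℝ)
        ≤ 4 * (m : ℝ) ^ 12 * (4 * (m : ℝ) ^ 12) := by gcongr
      _ = 16 * (m : ℝ) ^ 24 * 1 := by ring
      _ ≤ 16 * (m : ℝ) ^ 24 * ((1 / 2) ^ k * ((m : ℝ) ^ 3) ^ k) := by gcongr
      _ = 256 * (m : ℝ) ^ 9 * (1 / 2) ^ (4 + k) * ((m : ℝ) ^ 3) ^ (4 + k + 1) := by
          rw [pow_add (1 / 2 : ℝ) 4 k, show 4 + k + 1 = 5 + k by ring, pow_add ((m : ℝ) ^ 3) 5 k]
          ring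

lemma bracket_le {d m : ℕ} (hd : 4 ≤ d) (hm : 2 ≤ m) :
    bracket (VV d m) (m ^ 3) ≤ 148 * (m : ℝ) ^ 9 := by
  have hmR : (2 : ℝ) ≤ m := by exact_mod_cast hm
  have hm0 : (0 : ℝ) < m := by linarith
  unfold bracket
  have h1 : ((VV d m).card : ℝ) ^ 2 / (((m ^ 3 : ℕ) : ℝ)) ^ (d + 1) ≤ 16 * (m : ℝ) ^ 9 := by
    rw [card_VV hd]
    push_cast
    rw [div_le_iff₀ (by positivity)]
    have h2 : ((m : ℝ) ^ 3) ^ 5 ≤ ((m : ℝ) ^ 3) ^ (d + 1) :=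
      pow_le_pow_right₀ (one_le_pow₀ (by linarith)) (by omega)
    calc (4 * (m : ℝ) ^ 12) ^ 2 = 16 * (m : ℝ) ^ 9 * ((m : ℝ) ^ 3) ^ 5 := by ring
      _ ≤ 16 * (m : ℝ) ^ 9 * ((m : ℝ) ^ 3) ^ (d + 1) := by gcongr
  have h3 : ((VV d m).card : ℝ) / (((m ^ 3 : ℕ) : ℝ)) = 4 * (m : ℝ) ^ 9 := by
    rw [card_VV hd]
    push_cast
    field_simp
  have h4 : ∑ l ∈ Finset.Icc 2 (d - 1),
      ((VV d m).card : ℝ) * (sMax (VV d m) l : ℝ) / (((m ^ 3 : ℕ) : ℝ)) ^ (l + 1)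
      ≤ 128 * (m : ℝ) ^ 9 := by
    calc _ ≤ ∑ l ∈ Finset.Icc 2 (d - 1), 256 * (m : ℝ) ^ 9 * (1 / 2) ^ l := by
          apply Finset.sum_le_sum
          intro l hl
          rw [Finset.mem_Icc] at hl
          exact term_bound hd hm l hl.1
      _ = 256 * (m : ℝ) ^ 9 * ∑ l ∈ Finset.Icc 2 (d - 1), ((1 : ℝ) / 2) ^ l := by
          rw [Finset.mul_sum]
      _ ≤ 256 * (m : ℝ) ^ 9 * (1 / 2) := by
          have := half_sum (d - 2)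
          rw [show d - 2 + 1 = d - 1 by omega] at this
          have h5 : (0 : ℝ) < (1 / 2) ^ (d - 1) := by positivity
          gcongr
          linarith
      _ = 128 * (m : ℝ) ^ 9 := by ring
  linarith

end Pool.Agent.Q227.RL
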