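import Pool.Agent.Q227.RL.Defs

namespace Pool.Agent.Q227.RL

/-- The point `(xz - y², x, y, z)` of `ℂ⁴`. -/
def phi (p : ℕ × ℕ × ℕ) : Fin 4 → ℂ :=
  ![(p.1 : ℂ) * (p.2.2 : ℂ) - (p.2.1 : ℂ) ^ 2, (p.1 : ℂ), (p.2.1 : ℂ), (p.2.2 : ℂ)]

/-- The box of parameters. -/
def box (m : ℕ) : Finset (ℕ × ℕ × ℕ) :=
  Finset.range (m ^ 3) ×ˢ Finset.range (2 * m ^ 4) ×ˢ Finset.range (2 * m ^ 5)

lemma card_box (m : ℕ) : (box m).card = 4 * m ^ 12 := by
  simp only [box, Finset.card_product, Finset.card_range]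
  ring

/-- at most two elements of a finite set whose `y`-coordinate satisfies a nontrivial quadratic. -/
lemma fib2 (S : Finset (ℕ × ℕ × ℕ)) (a b c : ℂ) (hab : a ≠ 0 ∨ b ≠ 0)
    (h : ∀ p ∈ S, a * (p.2.1 : ℂ) ^ 2 + b * (p.2.1 : ℂ) + c = 0)
    (hinj : ∀ p ∈ S, ∀ q ∈ S, p.2.1 = q.2.1 → p = q) : S.card ≤ 2 := by
  by_contra hcon
  push Not at hcon
  obtain ⟨p, hp, q, hq, t, ht, hpq, hpt, hqt⟩ := Finset.two_lt_card.1 hcon
  have h1 := h p hp
  have h2 := h q hq
  have h3 := h t ht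
  have e1 : (p.2.1 : ℂ) - q.2.1 ≠ 0 := by
    intro h0
    apply hpq
    apply hinj p hp q hq
    have : (p.2.1 : ℂ) = q.2.1 := by linear_combination h0
    exact_mod_cast this
  have e2 : (p.2.1 : ℂ) - t.2.1 ≠ 0 := by
    intro h0
    apply hpt
    apply hinj p hp t ht
    have : (p.2.1 : ℂ) = t.2.1 := by linear_combination h0
    exact_mod_cast this
  have e3 : (q.2.1 : ℂ) - t.2.1 ≠ 0 := by
    intro h0
    apply hqt
    apply hinj q hq t ht
    have : (q.2.1 : ℂ) = t.2.1 := by linear_combination h0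
    exact_mod_cast this
  have f1 : a * ((p.2.1 : ℂ) + q.2.1) + b = 0 := by
    have : ((p.2.1 : ℂ) - q.2.1) * (a * ((p.2.1 : ℂ) + q.2.1) + b) = 0 := by
      linear_combination h1 - h2
    rcases mul_eq_zero.1 this with h | h
    · exact absurd h e1
    · exact h
  have f2 : a * ((p.2.1 : ℂ) + t.2.1) + b = 0 := by
    have : ((p.2.1 : ℂ) - t.2.1) * (a * ((p.2.1 : ℂ) + t.2.1) + b) = 0 := by
      linear_combination h1 - h3
    rcases mul_eq_zero.1 this with h | h
    · exact absurd h e2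
    · exact h
  have f3 : a = 0 := by
    have : ((q.2.1 : ℂ) - t.2.1) * a = 0 := by linear_combination f1 - f2
    rcases mul_eq_zero.1 this with h | h
    · exact absurd h e3
    · exact h
  have f4 : b = 0 := by rw [f3] at f1; linear_combination f1
  rcases hab with h | h
  · exact h f3
  · exact h f4

/-- counting by the map `(x,z)`. -/
lemma count_xz {m : ℕ} (S : Finset (ℕ × ℕ × ℕ)) (hS : S ⊆ box m) (k : ℕ)
    (h : ∀ b : ℕ × ℕ, (S.filter (fun p => (p.1, p.2.2) = b)).card ≤ k) :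
    S.card ≤ k * (m ^ 3 * (2 * m ^ 5)) := by
  have := Finset.card_le_mul_card_image_of_maps_to (s := S)
    (t := Finset.range (m ^ 3) ×ˢ Finset.range (2 * m ^ 5)) (f := fun p => (p.1, p.2.2))
    (fun p hp => by
      have := hS hp
      simp only [box, Finset.mem_product, Finset.mem_range] at this ⊢
      exact ⟨this.1, this.2.2⟩) k (fun b _ => h b)
  simpa [Finset.card_product] using this

lemma count_xy {m : ℕ} (S : Finset (ℕ × ℕ × ℕ)) (hS : S ⊆ box m) (k : ℕ)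
    (h : ∀ b : ℕ × ℕ, (S.filter (fun p => (p.1, p.2.1) = b)).card ≤ k) :
    S.card ≤ k * (m ^ 3 * (2 * m ^ 4)) := by
  have := Finset.card_le_mul_card_image_of_maps_to (s := S)
    (t := Finset.range (m ^ 3) ×ˢ Finset.range (2 * m ^ 4)) (f := fun p => (p.1, p.2.1))
    (fun p hp => by
      have := hS hp
      simp only [box, Finset.mem_product, Finset.mem_range] at this ⊢
      exact ⟨this.1, this.2.1⟩) k (fun b _ => h b)
  simpa [Finset.card_product] using this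

lemma count_yz {m : ℕ} (S : Finset (ℕ × ℕ × ℕ)) (hS : S ⊆ box m) (k : ℕ)
    (h : ∀ b : ℕ × ℕ, (S.filter (fun p => p.2 = b)).card ≤ k) :
    S.card ≤ k * ((2 * m ^ 4) * (2 * m ^ 5)) := by
  have := Finset.card_le_mul_card_image_of_maps_to (s := S)
    (t := Finset.range (2 * m ^ 4) ×ˢ Finset.range (2 * m ^ 5)) (f := fun p => p.2)
    (fun p hp => by
      have := hS hp
      simp only [box, Finset.mem_product, Finset.mem_range] at this ⊢
      exact ⟨this.2.1, this.2.2⟩) k (fun b _ => h b)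
  simpa [Finset.card_product] using this

lemma count_x {m : ℕ} (S : Finset (ℕ × ℕ × ℕ)) (hS : S ⊆ box m) (k : ℕ)
    (h : ∀ b : ℕ, (S.filter (fun p => p.1 = b)).card ≤ k) :
    S.card ≤ k * m ^ 3 := by
  have := Finset.card_le_mul_card_image_of_maps_to (s := S)
    (t := Finset.range (m ^ 3)) (f := fun p => p.1)
    (fun p hp => by
      have := hS hp
      simp only [box, Finset.mem_product, Finset.mem_range] at this ⊢
      exact this.1) k (fun b _ => h b)
  simpa using this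

lemma count_y {m : ℕ} (S : Finset (ℕ × ℕ × ℕ)) (hS : S ⊆ box m) (k : ℕ)
    (h : ∀ b : ℕ, (S.filter (fun p => p.2.1 = b)).card ≤ k) :
    S.card ≤ k * (2 * m ^ 4) := by
  have := Finset.card_le_mul_card_image_of_maps_to (s := S)
    (t := Finset.range (2 * m ^ 4)) (f := fun p => p.2.1)
    (fun p hp => by
      have := hS hp
      simp only [box, Finset.mem_product, Finset.mem_range] at this ⊢
      exact this.2.1) k (fun b _ => h b)
  simpa using this

lemma count_z {m : ℕ} (S : Finset (ℕ × ℕ × ℕ)) (hS : S ⊆ box m) (k : ℕ)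
    (h : ∀ b : ℕ, (S.filter (fun p => p.2.2 = b)).card ≤ k) :
    S.card ≤ k * (2 * m ^ 5) := by
  have := Finset.card_le_mul_card_image_of_maps_to (s := S)
    (t := Finset.range (2 * m ^ 5)) (f := fun p => p.2.2)
    (fun p hp => by
      have := hS hp
      simp only [box, Finset.mem_product, Finset.mem_range] at this ⊢
      exact this.2.2) k (fun b _ => h b)
  simpa using this

/-- a linear functional on `ℂ⁴` in coordinates. -/
lemma func_apply (f : (Fin 4 → ℂ) →ₗ[ℂ] ℂ) (v : Fin 4 → ℂ) :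
    f v = f (Pi.single 0 1) * v 0 + f (Pi.single 1 1) * v 1 + f (Pi.single 2 1) * v 2
      + f (Pi.single 3 1) * v 3 := by
  have h := LinearMap.pi_apply_eq_sum_univ f v
  rw [h, Fin.sum_univ_four]
  have e : ∀ i : Fin 4, (fun j => if i = j then (1 : ℂ) else 0) = Pi.single i 1 := by
    intro i
    funext j
    simp [Pi.single_apply, eq_comm]
  simp only [e, smul_eq_mul]
  ring

lemma func_ne_zero {f : (Fin 4 → ℂ) →ₗ[ℂ] ℂ} (hf : f ≠ 0) :
    f (Pi.single 0 1) ≠ 0 ∨ f (Pi.single 1 1) ≠ 0 ∨ f (Pi.single 2 1) ≠ 0 ∨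
      f (Pi.single 3 1) ≠ 0 := by
  by_contra h
  push Not at h
  obtain ⟨h0, h1, h2, h3⟩ := h
  apply hf
  ext v
  rw [LinearMap.comp_apply, func_apply, h0, h1, h2, h3]
  simp

lemma func_phi (f : (Fin 4 → ℂ) →ₗ[ℂ] ℂ) (p : ℕ × ℕ × ℕ) :
    f (phi p) = f (Pi.single 0 1) * ((p.1 : ℂ) * (p.2.2 : ℂ) - (p.2.1 : ℂ) ^ 2)
      + f (Pi.single 1 1) * (p.1 : ℂ) + f (Pi.single 2 1) * (p.2.1 : ℂ)
      + f (Pi.single 3 1) * (p.2.2 : ℂ) := by
  rw [func_apply]
  simp [phi]

lemma exists_func (W : Submodule ℂ (Fin 4 → ℂ)) (hW : Module.finrank ℂ W ≤ 3) :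
    ∃ f : (Fin 4 → ℂ) →ₗ[ℂ] ℂ, f ≠ 0 ∧ W ≤ LinearMap.ker f := by
  have hlt : W < ⊤ := by
    rw [lt_top_iff_ne_top]
    rintro rfl
    rw [finrank_top] at hW
    simp at hW
  obtain ⟨f, hf, hle⟩ := Submodule.exists_le_ker_of_lt_top W hlt
  exact ⟨f, hf, hle⟩

lemma exists_func2 (W : Submodule ℂ (Fin 4 → ℂ)) (hW : Module.finrank ℂ W ≤ 2) (e : Fin 4 → ℂ) :
    ∃ f : (Fin 4 → ℂ) →ₗ[ℂ] ℂ, f ≠ 0 ∧ W ≤ LinearMap.ker f ∧ f e = 0 := by
  have h1 : Module.finrank ℂ (W ⊔ Submodule.span ℂ {e} : Submodule ℂ (Fin 4 → ℂ)) ≤ 3 := by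
    have h2 := Submodule.finrank_add_le_finrank_add_finrank W (Submodule.span ℂ {e})
    have h3 : Module.finrank ℂ (Submodule.span ℂ {e}) ≤ 1 := by
      have := finrank_span_le_card (R := ℂ) ({e} : Set (Fin 4 → ℂ))
      simpa using this
    omega
  obtain ⟨f, hf, hle⟩ := exists_func _ h1
  refine ⟨f, hf, le_trans le_sup_left hle, ?_⟩
  have : e ∈ LinearMap.ker f :=
    hle (Submodule.mem_sup_right (Submodule.mem_span_singleton_self e))
  simpa using this

end Pool.Agent.Q227.RL
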