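import Mathlib

/-!
# Rich lines and flats in `ℂ^d` (MP_0eaff0_co): definitions
-/

namespace Pool.Agent.Q227.RL

/-- `F` is an `l`-flat of `ℂ^d`: a nonempty complex affine subspace whose direction has
dimension `l`. -/
def IsFlat {d : ℕ} (l : ℕ) (F : AffineSubspace ℂ (Fin d → ℂ)) : Prop :=
  (F : Set (Fin d → ℂ)).Nonempty ∧ Module.finrank ℂ F.direction = l

/-- The set of `r`-rich lines of a finite point set `V ⊆ ℂ^d`: the `1`-flats containing at least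
`r` points of `V`. -/
def richLines {d : ℕ} (V : Finset (Fin d → ℂ)) (r : ℕ) :
    Set (AffineSubspace ℂ (Fin d → ℂ)) :=
  {L | IsFlat 1 L ∧ r ≤ ((V : Set (Fin d → ℂ)) ∩ L).ncard}

/-- `sMax V l = s_l(V)`: the maximal number of points of `V` on an `l`-flat of `ℂ^d`. -/
noncomputable def sMax {d : ℕ} (V : Finset (Fin d → ℂ)) (l : ℕ) : ℕ :=
  sSup {k | ∃ F : AffineSubspace ℂ (Fin d → ℂ), IsFlat l F ∧
    ((V : Set (Fin d → ℂ)) ∩ F).ncard = k}

/-- The bracketed expression of the conjecture: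
`n² r^{-d-1} + ∑_{l=2}^{d-1} n s_l r^{-l-1} + n r^{-1}`. -/
noncomputable def bracket {d : ℕ} (V : Finset (Fin d → ℂ)) (r : ℕ) : ℝ :=
  (V.card : ℝ) ^ 2 / (r : ℝ) ^ (d + 1)
    + ∑ l ∈ Finset.Icc 2 (d - 1), (V.card : ℝ) * (sMax V l : ℝ) / (r : ℝ) ^ (l + 1)
    + (V.card : ℝ) / (r : ℝ)

end Pool.Agent.Q227.RL
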