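import Pool.Agent.Q227.RL.Count

namespace Pool.Agent.Q227.RL

/-- Points of the box whose images have all their differences in a subspace of dimension `≤ 3`. -/
lemma hyper {m : ℕ} (hm : 1 ≤ m) (W : Submodule ℂ (Fin 4 → ℂ)) (hW : Module.finrank ℂ W ≤ 3)
    (S : Finset (ℕ × ℕ × ℕ)) (hS : S ⊆ box m)
    (hd : ∀ p ∈ S, ∀ q ∈ S, phi p - phi q ∈ W) : S.card ≤ 4 * m ^ 9 := by
  obtain ⟨f, hf0, hf⟩ := exists_func W hW
  rcases S.eq_empty_or_nonempty with rfl | ⟨q, hq⟩
  · simp
  have hc : ∀ p ∈ S, f (phi p) = f (phi q) := by
    intro p hp
    have := hf (hd p hp q hq)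
    rw [LinearMap.mem_ker, map_sub, sub_eq_zero] at this
    exact this
  generalize hcc : f (phi q) = c at hc
  have hA := func_ne_zero hf0
  have hE : ∀ p ∈ S, f (Pi.single 0 1) * ((p.1 : ℂ) * (p.2.2 : ℂ) - (p.2.1 : ℂ) ^ 2)
      + f (Pi.single 1 1) * (p.1 : ℂ) + f (Pi.single 2 1) * (p.2.1 : ℂ)
      + f (Pi.single 3 1) * (p.2.2 : ℂ) = c := by
    intro p hp
    rw [← func_phi]
    exact hc p hp
  generalize f (Pi.single 0 1) = A at hA hE
  generalize f (Pi.single 1 1) = B at hA hE
  generalize f (Pi.single 2 1) = C at hA hE
  generalize f (Pi.single 3 1) = D at hA hE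
  by_cases h1 : A ≠ 0 ∨ C ≠ 0
  · have h2 : S.card ≤ 2 * (m ^ 3 * (2 * m ^ 5)) := by
      apply count_xz S hS
      rintro ⟨x, z⟩
      apply fib2 _ (-A) C (A * x * z + B * x + D * z - c)
      · rcases h1 with h | h
        · left; simpa using h
        · right; exact h
      · intro p hp
        rw [Finset.mem_filter, Prod.mk.injEq] at hp
        obtain ⟨hp, rfl, rfl⟩ := hp
        linear_combination hE p hp
      · intro p hp q hq h
        rw [Finset.mem_filter, Prod.mk.injEq] at hp hq
        ext
        · rw [hp.2.1, hq.2.1]
        · exact h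
        · rw [hp.2.2, hq.2.2]
    have h3 : m ^ 8 ≤ m ^ 9 := Nat.pow_le_pow_right hm (by norm_num)
    have h4 : 2 * (m ^ 3 * (2 * m ^ 5)) = 4 * m ^ 8 := by ring
    omega
  · push Not at h1
    obtain ⟨rfl, rfl⟩ := h1
    by_cases h2 : D = 0
    · subst h2
      have hB : B ≠ 0 := by
        rcases hA with h | h | h | h
        · exact absurd rfl h
        · exact h
        · exact absurd rfl h
        · exact absurd rfl h
      have h2 : S.card ≤ 1 * ((2 * m ^ 4) * (2 * m ^ 5)) := by
        apply count_yz S hS
        rintro ⟨y, z⟩
        rw [Finset.card_le_one]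
        intro p hp q hq
        rw [Finset.mem_filter] at hp hq
        have e1 := hE p hp.1
        have e2 := hE q hq.1
        have e3 : B * ((p.1 : ℂ) - q.1) = 0 := by linear_combination e1 - e2
        have e4 : (p.1 : ℂ) = q.1 := by
          rcases mul_eq_zero.1 e3 with h | h
          · exact absurd h hB
          · linear_combination h
        refine Prod.ext (by exact_mod_cast e4) (by rw [hp.2, hq.2])
      have h4 : 1 * ((2 * m ^ 4) * (2 * m ^ 5)) = 4 * m ^ 9 := by ring
      omega
    · have h2' : S.card ≤ 1 * (m ^ 3 * (2 * m ^ 4)) := by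
        apply count_xy S hS
        rintro ⟨x, y⟩
        rw [Finset.card_le_one]
        intro p hp q hq
        rw [Finset.mem_filter, Prod.mk.injEq] at hp hq
        have e1 := hE p hp.1
        have e2 := hE q hq.1
        have e5 : p.1 = q.1 := by rw [hp.2.1, hq.2.1]
        have e6 : p.2.1 = q.2.1 := by rw [hp.2.2, hq.2.2]
        rw [e5] at e1
        have e3 : D * ((p.2.2 : ℂ) - q.2.2) = 0 := by linear_combination e1 - e2
        have e4 : (p.2.2 : ℂ) = q.2.2 := by
          rcases mul_eq_zero.1 e3 with h | h
          · exact absurd h h2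
          · linear_combination h
        exact Prod.ext e5 (Prod.ext e6 (by exact_mod_cast e4))
      have h3 : m ^ 7 ≤ m ^ 9 := Nat.pow_le_pow_right hm (by norm_num)
      have h4 : 1 * (m ^ 3 * (2 * m ^ 4)) = 2 * m ^ 7 := by ring
      omega

/-- Points of the box whose images have all their differences in a subspace of dimension `≤ 2`. -/
lemma plane {m : ℕ} (hm : 1 ≤ m) (W : Submodule ℂ (Fin 4 → ℂ)) (hW : Module.finrank ℂ W ≤ 2)
    (S : Finset (ℕ × ℕ × ℕ)) (hS : S ⊆ box m)
    (hd : ∀ p ∈ S, ∀ q ∈ S, phi p - phi q ∈ W) : S.card ≤ 4 * m ^ 5 := by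
  rcases S.eq_empty_or_nonempty with rfl | ⟨q, hq⟩
  · simp
  obtain ⟨f, hf0, hf, hfe⟩ := exists_func2 W hW (Pi.single 0 1)
  have hc : ∀ g : (Fin 4 → ℂ) →ₗ[ℂ] ℂ, W ≤ LinearMap.ker g → ∀ p ∈ S, g (phi p) = g (phi q) := by
    intro g hg p hp
    have := hg (hd p hp q hq)
    rw [LinearMap.mem_ker, map_sub, sub_eq_zero] at this
    exact this
  have hA := func_ne_zero hf0
  have hE : ∀ p ∈ S, f (Pi.single 0 1) * ((p.1 : ℂ) * (p.2.2 : ℂ) - (p.2.1 : ℂ) ^ 2)
      + f (Pi.single 1 1) * (p.1 : ℂ) + f (Pi.single 2 1) * (p.2.1 : ℂ)
      + f (Pi.single 3 1) * (p.2.2 : ℂ) = f (phi q) := by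
    intro p hp
    rw [← func_phi]
    exact hc f hf p hp
  generalize f (phi q) = c at hE
  rw [hfe] at hA hE
  generalize f (Pi.single 1 1) = B at hA hE
  generalize f (Pi.single 2 1) = C at hA hE
  generalize f (Pi.single 3 1) = D at hA hE
  have hm3 : m ^ 3 ≤ m ^ 5 := Nat.pow_le_pow_right hm (by norm_num)
  have hm4 : m ^ 4 ≤ m ^ 5 := Nat.pow_le_pow_right hm (by norm_num)
  by_cases hD : D = 0
  · by_cases hC : C = 0
    · -- `B ≠ 0`: `x` is constant on `S`
      have hB : B ≠ 0 := by
        rcases hA with h | h | h | h
        · exact absurd rfl h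
        · exact h
        · exact absurd hC h
        · exact absurd hD h
      subst hC hD
      have hx : ∀ p ∈ S, p.1 = q.1 := by
        intro p hp
        have e1 := hE p hp
        have e2 := hE q hq
        have e3 : B * ((p.1 : ℂ) - q.1) = 0 := by linear_combination e1 - e2
        have e4 : (p.1 : ℂ) = q.1 := by
          rcases mul_eq_zero.1 e3 with h | h
          · exact absurd h hB
          · linear_combination h
        exact_mod_cast e4
      obtain ⟨g, hg0, hg, hge⟩ := exists_func2 W hW (Pi.single 1 1)
      have hA' := func_ne_zero hg0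
      have hE' : ∀ p ∈ S, g (Pi.single 0 1) * ((p.1 : ℂ) * (p.2.2 : ℂ) - (p.2.1 : ℂ) ^ 2)
          + g (Pi.single 1 1) * (p.1 : ℂ) + g (Pi.single 2 1) * (p.2.1 : ℂ)
          + g (Pi.single 3 1) * (p.2.2 : ℂ) = g (phi q) := by
        intro p hp
        rw [← func_phi]
        exact hc g hg p hp
      generalize g (phi q) = c' at hE'
      rw [hge] at hA' hE'
      generalize g (Pi.single 0 1) = A' at hA' hE'
      generalize g (Pi.single 2 1) = C' at hA' hE'
      generalize g (Pi.single 3 1) = D' at hA' hE'
      by_cases h1 : A' ≠ 0 ∨ C' ≠ 0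
      · have h2 : S.card ≤ 2 * (2 * m ^ 5) := by
          apply count_z S hS
          intro z
          apply fib2 _ (-A') C' (A' * q.1 * z + D' * z - c')
          · rcases h1 with h | h
            · left; simpa using h
            · right; exact h
          · intro p hp
            rw [Finset.mem_filter] at hp
            obtain ⟨hp, rfl⟩ := hp
            have := hE' p hp
            rw [hx p hp] at this
            linear_combination this
          · intro p hp r hr h
            rw [Finset.mem_filter] at hp hr
            ext
            · rw [hx p hp.1, hx r hr.1]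
            · exact h
            · rw [hp.2, hr.2]
        omega
      · push Not at h1
        obtain ⟨rfl, rfl⟩ := h1
        have hD' : D' ≠ 0 := by
          rcases hA' with h | h | h | h
          · exact absurd rfl h
          · exact absurd rfl h
          · exact absurd rfl h
          · exact h
        have h2 : S.card ≤ 1 * (2 * m ^ 4) := by
          apply count_y S hS
          intro y
          rw [Finset.card_le_one]
          intro p hp r hr
          rw [Finset.mem_filter] at hp hr
          have e1 := hE' p hp.1
          have e2 := hE' r hr.1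
          have e3 : D' * ((p.2.2 : ℂ) - r.2.2) = 0 := by linear_combination e1 - e2
          have e4 : (p.2.2 : ℂ) = r.2.2 := by
            rcases mul_eq_zero.1 e3 with h | h
            · exact absurd h hD'
            · linear_combination h
          exact Prod.ext (by rw [hx p hp.1, hx r hr.1])
            (Prod.ext (by rw [hp.2, hr.2]) (by exact_mod_cast e4))
        omega
    · -- `C ≠ 0`, `D = 0`: `y` is an affine function of `x`
      subst hD
      have hxy : ∀ p ∈ S, ∀ r ∈ S, p.1 = r.1 → p.2.1 = r.2.1 := by
        intro p hp r hr h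
        have e1 := hE p hp
        have e2 := hE r hr
        rw [h] at e1
        have e3 : C * ((p.2.1 : ℂ) - r.2.1) = 0 := by linear_combination e1 - e2
        have e4 : (p.2.1 : ℂ) = r.2.1 := by
          rcases mul_eq_zero.1 e3 with h | h
          · exact absurd h hC
          · linear_combination h
        exact_mod_cast e4
      obtain ⟨g, hg0, hg, hge⟩ := exists_func2 W hW (Pi.single 2 1)
      have hA' := func_ne_zero hg0
      have hE' : ∀ p ∈ S, g (Pi.single 0 1) * ((p.1 : ℂ) * (p.2.2 : ℂ) - (p.2.1 : ℂ) ^ 2)
          + g (Pi.single 1 1) * (p.1 : ℂ) + g (Pi.single 2 1) * (p.2.1 : ℂ)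
          + g (Pi.single 3 1) * (p.2.2 : ℂ) = g (phi q) := by
        intro p hp
        rw [← func_phi]
        exact hc g hg p hp
      generalize g (phi q) = c' at hE'
      rw [hge] at hA' hE'
      generalize g (Pi.single 0 1) = A' at hA' hE'
      generalize g (Pi.single 1 1) = B' at hA' hE'
      generalize g (Pi.single 3 1) = D' at hA' hE'
      -- split off the exceptional value of `x`
      have hgood : (S.filter (fun p => A' * (p.1 : ℂ) + D' ≠ 0)).card ≤ 1 * m ^ 3 := by
        apply count_x _ ((Finset.filter_subset _ _).trans hS)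
        intro x
        rw [Finset.card_le_one]
        intro p hp r hr
        rw [Finset.mem_filter, Finset.mem_filter] at hp hr
        obtain ⟨⟨hp, hp1⟩, hp2⟩ := hp
        obtain ⟨⟨hr, hr1⟩, hr2⟩ := hr
        have e5 : p.1 = r.1 := by rw [hp2, hr2]
        have e6 := hxy p hp r hr e5
        have e1 := hE' p hp
        have e2 := hE' r hr
        rw [e5, e6] at e1
        rw [e5] at hp1
        have e3 : (A' * (r.1 : ℂ) + D') * ((p.2.2 : ℂ) - r.2.2) = 0 := by
          linear_combination e1 - e2
        have e4 : (p.2.2 : ℂ) = r.2.2 := by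
          rcases mul_eq_zero.1 e3 with h | h
          · exact absurd h hp1
          · linear_combination h
        exact Prod.ext e5 (Prod.ext e6 (by exact_mod_cast e4))
      have hbad : (S.filter (fun p => ¬ (A' * (p.1 : ℂ) + D' ≠ 0))).card ≤ 1 * (2 * m ^ 5) := by
        apply count_z _ ((Finset.filter_subset _ _).trans hS)
        intro z
        rw [Finset.card_le_one]
        intro p hp r hr
        rw [Finset.mem_filter, Finset.mem_filter, not_not] at hp hr
        obtain ⟨⟨hp, hp1⟩, hp2⟩ := hp
        obtain ⟨⟨hr, hr1⟩, hr2⟩ := hr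
        have e5 : p.1 = r.1 := by
          have e7 : (p.1 : ℂ) = r.1 := by
            by_cases hA0 : A' = 0
            · subst hA0
              have hD0 : D' = 0 := by linear_combination hp1
              subst hD0
              have hB0 : B' ≠ 0 := by
                rcases hA' with h | h | h | h
                · exact absurd rfl h
                · exact h
                · exact absurd rfl h
                · exact absurd rfl h
              have e1 := hE' p hp
              have e2 := hE' r hr
              have e3 : B' * ((p.1 : ℂ) - r.1) = 0 := by linear_combination e1 - e2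
              rcases mul_eq_zero.1 e3 with h | h
              · exact absurd h hB0
              · linear_combination h
            · have e3 : A' * ((p.1 : ℂ) - r.1) = 0 := by linear_combination hp1 - hr1
              rcases mul_eq_zero.1 e3 with h | h
              · exact absurd h hA0
              · linear_combination h
          exact_mod_cast e7
        exact Prod.ext e5 (Prod.ext (hxy p hp r hr e5) (by rw [hp2, hr2]))
      have hsum := Finset.card_filter_add_card_filter_not (s := S)
        (fun p => A' * (p.1 : ℂ) + D' ≠ 0)
      omega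
  · -- `D ≠ 0`: `z` is an affine function of `x,y`
    have hxyz : ∀ p ∈ S, ∀ r ∈ S, p.1 = r.1 → p.2.1 = r.2.1 → p = r := by
      intro p hp r hr h h'
      have e1 := hE p hp
      have e2 := hE r hr
      rw [h, h'] at e1
      have e3 : D * ((p.2.2 : ℂ) - r.2.2) = 0 := by linear_combination e1 - e2
      have e4 : (p.2.2 : ℂ) = r.2.2 := by
        rcases mul_eq_zero.1 e3 with h | h
        · exact absurd h hD
        · linear_combination h
      exact Prod.ext h (Prod.ext h' (by exact_mod_cast e4))
    obtain ⟨g, hg0, hg, hge⟩ := exists_func2 W hW (Pi.single 3 1)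
    have hA' := func_ne_zero hg0
    have hE' : ∀ p ∈ S, g (Pi.single 0 1) * ((p.1 : ℂ) * (p.2.2 : ℂ) - (p.2.1 : ℂ) ^ 2)
        + g (Pi.single 1 1) * (p.1 : ℂ) + g (Pi.single 2 1) * (p.2.1 : ℂ)
        + g (Pi.single 3 1) * (p.2.2 : ℂ) = g (phi q) := by
      intro p hp
      rw [← func_phi]
      exact hc g hg p hp
    generalize g (phi q) = c' at hE'
    rw [hge] at hA' hE'
    generalize g (Pi.single 0 1) = A' at hA' hE'
    generalize g (Pi.single 1 1) = B' at hA' hE'
    generalize g (Pi.single 2 1) = C' at hA' hE'
    by_cases hB : A' = 0 ∧ C' = 0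
    · obtain ⟨rfl, rfl⟩ := hB
      have hB0 : B' ≠ 0 := by
        rcases hA' with h | h | h | h
        · exact absurd rfl h
        · exact h
        · exact absurd rfl h
        · exact absurd rfl h
      have h2 : S.card ≤ 1 * (2 * m ^ 4) := by
        apply count_y S hS
        intro y
        rw [Finset.card_le_one]
        intro p hp r hr
        rw [Finset.mem_filter] at hp hr
        have e1 := hE' p hp.1
        have e2 := hE' r hr.1
        have e3 : B' * ((p.1 : ℂ) - r.1) = 0 := by linear_combination e1 - e2
        have e4 : (p.1 : ℂ) = r.1 := by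
          rcases mul_eq_zero.1 e3 with h | h
          · exact absurd h hB0
          · linear_combination h
        exact hxyz p hp.1 r hr.1 (by exact_mod_cast e4) (by rw [hp.2, hr.2])
      omega
    · -- for each `x` a nontrivial quadratic equation for `y`
      have h2 : S.card ≤ 2 * m ^ 3 := by
        apply count_x S hS
        intro x
        apply fib2 _ (-(D * A')) (D * C' - A' * C * x)
          (A' * x * (c - B * x) + D * B' * x - D * c')
        · by_cases hA0 : A' = 0
          · right
            have hC0 : C' ≠ 0 := fun h => hB ⟨hA0, h⟩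
            rw [hA0]
            simpa using ⟨hD, hC0⟩
          · left
            rw [neg_ne_zero]
            exact mul_ne_zero hD hA0
        · intro p hp
          rw [Finset.mem_filter] at hp
          obtain ⟨hp, rfl⟩ := hp
          have e1 := hE' p hp
          have e2 := hE p hp
          linear_combination D * e1 - A' * (p.1 : ℂ) * e2
        · intro p hp r hr h
          rw [Finset.mem_filter] at hp hr
          exact hxyz p hp.1 r hr.1 (by rw [hp.2, hr.2]) h
      omega

end Pool.Agent.Q227.RL
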