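import Pool.Agent.Q227.RL.Flats

namespace Pool.Agent.Q227.RL

/-- The embedding of `ℂ⁴` into `ℂ^d` as the first four coordinates. -/
noncomputable def iota (d : ℕ) : (Fin 4 → ℂ) →ₗ[ℂ] (Fin d → ℂ) :=
  LinearMap.pi (fun i => if h : i.val < 4 then LinearMap.proj ⟨i.val, h⟩ else 0)

lemma iota_apply {d : ℕ} (v : Fin 4 → ℂ) (i : Fin d) :
    iota d v i = if h : i.val < 4 then v ⟨i.val, h⟩ else 0 := by
  unfold iota
  rw [LinearMap.pi_apply]
  split_ifs with h
  · rfl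
  · rfl

lemma iota_injective {d : ℕ} (hd : 4 ≤ d) : Function.Injective (iota d) := by
  intro v w h
  funext j
  have := congrFun h ⟨j.val, lt_of_lt_of_le j.isLt hd⟩
  rw [iota_apply, iota_apply, dif_pos j.isLt, dif_pos j.isLt] at this
  exact this

lemma iota_apply' {d : ℕ} (hd : 4 ≤ d) (v : Fin 4 → ℂ) (j : Fin 4) :
    iota d v ⟨j.val, lt_of_lt_of_le j.isLt hd⟩ = v j := by
  rw [iota_apply, dif_pos j.isLt]

lemma phi_injective : Function.Injective phi := by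
  rintro ⟨x, y, z⟩ ⟨x', y', z'⟩ h
  have h1 := congrFun h 1
  have h2 := congrFun h 2
  have h3 := congrFun h 3
  simp [phi] at h1 h2 h3
  simp [h1, h2, h3]

/-- The point of `ℂ^d` with parameters `p`. -/
noncomputable def pt (d : ℕ) (p : ℕ × ℕ × ℕ) : Fin d → ℂ := iota d (phi p)

lemma pt_injective {d : ℕ} (hd : 4 ≤ d) : Function.Injective (pt d) :=
  (iota_injective hd).comp phi_injective

/-- The point set. -/
noncomputable def VV (d m : ℕ) : Finset (Fin d → ℂ) := by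
  classical exact (box m).image (pt d)

lemma mem_VV {d m : ℕ} {v : Fin d → ℂ} : v ∈ VV d m ↔ ∃ p ∈ box m, pt d p = v := by
  classical
  unfold VV
  rw [Finset.mem_image]

lemma card_VV {d : ℕ} (hd : 4 ≤ d) (m : ℕ) : (VV d m).card = 4 * m ^ 12 := by
  classical
  unfold VV
  rw [Finset.card_image_of_injective _ (pt_injective hd), card_box]

lemma VV_int {d m : ℕ} {v : Fin d → ℂ} (hv : v ∈ VV d m) (i : Fin d) : ∃ k : ℤ, v i = (k : ℂ) := by
  obtain ⟨⟨x, y, z⟩, -, rfl⟩ := mem_VV.1 hv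
  unfold pt
  rw [iota_apply]
  split_ifs with h
  · generalize (⟨i.val, h⟩ : Fin 4) = j
    fin_cases j
    · exact ⟨x * z - y ^ 2, by simp [phi]⟩
    · exact ⟨x, by simp [phi]⟩
    · exact ⟨y, by simp [phi]⟩
    · exact ⟨z, by simp [phi]⟩
  · exact ⟨0, by simp⟩

/-- Points of `V` on a flat, pulled back to the box. -/
lemma ncard_inter_le {d m : ℕ} (hd : 4 ≤ d) (F : AffineSubspace ℂ (Fin d → ℂ)) (N : ℕ)
    (h : ∀ S ⊆ box m, (∀ p ∈ S, ∀ q ∈ S, phi p - phi q ∈ F.direction.comap (iota d)) →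
      S.card ≤ N) :
    (((VV d m : Finset (Fin d → ℂ)) : Set (Fin d → ℂ)) ∩ F).ncard ≤ N := by
  classical
  have e : (((VV d m : Finset (Fin d → ℂ)) : Set (Fin d → ℂ)) ∩ F)
      = (((box m).filter (fun p => pt d p ∈ F)).image (pt d) : Finset (Fin d → ℂ)) := by
    ext v
    rw [Set.mem_inter_iff, Finset.mem_coe, Finset.mem_coe, mem_VV, Finset.mem_image]
    constructor
    · rintro ⟨⟨p, hp, rfl⟩, hF⟩
      exact ⟨p, Finset.mem_filter.2 ⟨hp, hF⟩, rfl⟩
    · rintro ⟨p, hp, rfl⟩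
      rw [Finset.mem_filter] at hp
      exact ⟨⟨p, hp.1, rfl⟩, hp.2⟩
  rw [e, Set.ncard_coe_finset, Finset.card_image_of_injective _ (pt_injective hd)]
  apply h _ (Finset.filter_subset _ _)
  intro p hp q hq
  rw [Finset.mem_filter] at hp hq
  rw [Submodule.mem_comap, map_sub]
  have := AffineSubspace.vsub_mem_direction hp.2 hq.2
  simpa [pt] using this

lemma finrank_comap_le {d : ℕ} (hd : 4 ≤ d) (W : Submodule ℂ (Fin d → ℂ)) :
    Module.finrank ℂ (W.comap (iota d)) ≤ Module.finrank ℂ W := by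
  have e := LinearEquiv.finrank_eq
    (Submodule.equivMapOfInjective (iota d) (iota_injective hd) (W.comap (iota d)))
  rw [e]
  exact Submodule.finrank_mono (Submodule.map_comap_le _ _)

lemma sMax_le {d : ℕ} (V : Finset (Fin d → ℂ)) (l N : ℕ)
    (h : ∀ F : AffineSubspace ℂ (Fin d → ℂ), IsFlat l F →
      ((V : Set (Fin d → ℂ)) ∩ F).ncard ≤ N) : sMax V l ≤ N := by
  apply csSup_le'
  rintro k ⟨F, hF, rfl⟩
  exact h F hF

lemma sMax_le_card {d : ℕ} (V : Finset (Fin d → ℂ)) (l : ℕ) : sMax V l ≤ V.card := by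
  apply sMax_le
  intro F _
  rw [← Set.ncard_coe_finset]
  exact Set.ncard_le_ncard Set.inter_subset_left (Finset.finite_toSet V)

lemma sMax_three {d m : ℕ} (hd : 4 ≤ d) (hm : 1 ≤ m) : sMax (VV d m) 3 ≤ 4 * m ^ 9 := by
  apply sMax_le
  intro F hF
  apply ncard_inter_le hd
  intro S hS h
  exact hyper hm _ ((finrank_comap_le hd _).trans hF.2.le) S hS h

lemma sMax_two {d m : ℕ} (hd : 4 ≤ d) (hm : 1 ≤ m) : sMax (VV d m) 2 ≤ 4 * m ^ 5 := by
  apply sMax_le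
  intro F hF
  apply ncard_inter_le hd
  intro S hS h
  exact plane hm _ ((finrank_comap_le hd _).trans hF.2.le) S hS h

/-! ### Lines -/

lemma mem_line_iff {d : ℕ} {a b x : Fin d → ℂ} :
    x ∈ line[ℂ, a, b] ↔ ∃ c : ℂ, x = a + c • (b - a) := by
  have h : x = (x - a) +ᵥ a := by simp
  rw [h, _root_.vadd_left_mem_affineSpan_pair]
  constructor
  · rintro ⟨r, hr⟩
    refine ⟨r, ?_⟩
    rw [vsub_eq_sub] at hr
    rw [hr, vadd_eq_add, add_comm]
  · rintro ⟨c, hc⟩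
    refine ⟨c, ?_⟩
    rw [vadd_eq_add, add_comm] at hc
    rw [vsub_eq_sub]
    exact (add_left_cancel hc).symm

lemma line_isFlat {d : ℕ} {a b : Fin d → ℂ} (hab : a ≠ b) : IsFlat 1 (line[ℂ, a, b]) := by
  refine ⟨⟨a, left_mem_affineSpan_pair ℂ a b⟩, ?_⟩
  rw [direction_affineSpan, vectorSpan_pair]
  apply finrank_span_singleton
  rw [Ne, vsub_eq_zero_iff_eq]
  exact hab

lemma line_eq_of_mem {d : ℕ} {L : AffineSubspace ℂ (Fin d → ℂ)} (hL : IsFlat 1 L)
    {a b : Fin d → ℂ} (ha : a ∈ L) (hb : b ∈ L) (hab : a ≠ b) : L = line[ℂ, a, b] := by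
  have hle : line[ℂ, a, b] ≤ L := affineSpan_pair_le_of_mem_of_mem ha hb
  symm
  apply AffineSubspace.eq_of_direction_eq_of_nonempty_of_le _
    ⟨a, left_mem_affineSpan_pair ℂ a b⟩ hle
  apply Submodule.eq_of_le_of_finrank_eq (AffineSubspace.direction_le hle)
  rw [hL.2, (line_isFlat hab).2]

lemma richLines_finite {d : ℕ} (V : Finset (Fin d → ℂ)) {r : ℕ} (hr : 2 ≤ r) :
    (richLines V r).Finite := by
  classical
  apply Set.Finite.subset
    ((V ×ˢ V).finite_toSet.image (fun p : (Fin d → ℂ) × (Fin d → ℂ) => line[ℂ, p.1, p.2]))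
  rintro L ⟨hL, hLr⟩
  have h1 : 1 < ((V : Set (Fin d → ℂ)) ∩ L).ncard := lt_of_lt_of_le hr hLr
  rw [Set.one_lt_ncard (Set.Finite.subset (Finset.finite_toSet V) Set.inter_subset_left)] at h1
  obtain ⟨a, ha, b, hb, hab⟩ := h1
  refine ⟨(a, b), ?_, (line_eq_of_mem hL ha.2 hb.2 hab).symm⟩
  rw [Finset.mem_coe, Finset.mem_product]
  exact ⟨ha.1, hb.1⟩

/-- the rich line with parameters `(u, y₀, z₀)`. -/
noncomputable def ln (d : ℕ) (j : ℕ × ℕ × ℕ) : AffineSubspace ℂ (Fin d → ℂ) :=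
  line[ℂ, pt d (0, j.2.1, j.2.2), pt d (1, j.2.1 + j.1, j.2.2 + j.1 ^ 2)]

lemma pt_on_ln (d : ℕ) (j : ℕ × ℕ × ℕ) (t : ℕ) :
    pt d (t, j.2.1 + t * j.1, j.2.2 + t * j.1 ^ 2) ∈ ln d j := by
  unfold ln
  rw [mem_line_iff]
  refine ⟨t, ?_⟩
  unfold pt
  rw [← map_sub, ← map_smul, ← map_add]
  congr 1
  funext i
  fin_cases i
  · simp [phi]
    ring
  · simp [phi]
  · simp [phi]
  · simp [phi]

lemma pt_one {d : ℕ} (hd : 4 ≤ d) (p : ℕ × ℕ × ℕ) :
    pt d p ⟨1, lt_of_lt_of_le (by norm_num) hd⟩ = (p.1 : ℂ) := by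
  have := iota_apply' hd (phi p) 1
  unfold pt
  exact this

lemma pt_ne {d : ℕ} (hd : 4 ≤ d) (j : ℕ × ℕ × ℕ) :
    pt d (0, j.2.1, j.2.2) ≠ pt d (1, j.2.1 + j.1, j.2.2 + j.1 ^ 2) := by
  intro h
  have := (Prod.ext_iff.1 (pt_injective hd h)).1
  simp at this

lemma ln_injective {d : ℕ} (hd : 4 ≤ d) : Function.Injective (ln d) := by
  have key : ∀ j j' : ℕ × ℕ × ℕ, ln d j = ln d j' →
      pt d (0, j'.2.1, j'.2.2) = pt d (0, j.2.1, j.2.2) ∧
      pt d (1, j'.2.1 + j'.1, j'.2.2 + j'.1 ^ 2) = pt d (1, j.2.1 + j.1, j.2.2 + j.1 ^ 2) := by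
    intro j j' h
    have h0 : pt d (0, j'.2.1, j'.2.2) ∈ ln d j := by
      rw [h]
      exact left_mem_affineSpan_pair ℂ _ _
    have h1 : pt d (1, j'.2.1 + j'.1, j'.2.2 + j'.1 ^ 2) ∈ ln d j := by
      rw [h]
      exact right_mem_affineSpan_pair ℂ _ _
    unfold ln at h0 h1
    rw [mem_line_iff] at h0 h1
    obtain ⟨c0, h0⟩ := h0
    obtain ⟨c1, h1⟩ := h1
    have e0 := congrFun h0 ⟨1, lt_of_lt_of_le (by norm_num) hd⟩
    have e1 := congrFun h1 ⟨1, lt_of_lt_of_le (by norm_num) hd⟩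
    rw [Pi.add_apply, Pi.smul_apply, Pi.sub_apply, pt_one hd, pt_one hd, pt_one hd] at e0 e1
    simp at e0 e1
    constructor
    · rw [h0, ← e0]
      simp
    · rw [h1, ← e1]
      simp
  intro j j' h
  obtain ⟨h0, h1⟩ := key j j' h
  have g0 := pt_injective hd h0
  have g1 := pt_injective hd h1
  simp only [Prod.mk.injEq, true_and] at g0 g1
  obtain ⟨g2, g3⟩ := g0
  have g4 : j'.1 = j.1 := by
    have := g1.1
    omega
  exact Prod.ext g4.symm (Prod.ext g2.symm g3.symm)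

lemma ln_rich {d m : ℕ} (hd : 4 ≤ d) {j : ℕ × ℕ × ℕ}
    (hj : j ∈ Finset.range m ×ˢ Finset.range (m ^ 4) ×ˢ Finset.range (m ^ 5)) :
    ln d j ∈ richLines (VV d m) (m ^ 3) := by
  classical
  simp only [Finset.mem_product, Finset.mem_range] at hj
  obtain ⟨hu, hy, hz⟩ := hj
  refine ⟨line_isFlat (pt_ne hd j), ?_⟩
  have hinj : Function.Injective (fun t : ℕ => pt d (t, j.2.1 + t * j.1, j.2.2 + t * j.1 ^ 2)) := by
    intro t t' h
    exact (Prod.ext_iff.1 (pt_injective hd h)).1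
  have hsub : (((Finset.range (m ^ 3)).image
      (fun t : ℕ => pt d (t, j.2.1 + t * j.1, j.2.2 + t * j.1 ^ 2)) : Finset (Fin d → ℂ)) :
        Set (Fin d → ℂ)) ⊆ ((VV d m : Finset (Fin d → ℂ)) : Set (Fin d → ℂ)) ∩ ln d j := by
    intro v hv
    rw [Finset.mem_coe, Finset.mem_image] at hv
    obtain ⟨t, ht, rfl⟩ := hv
    refine ⟨?_, pt_on_ln d j t⟩
    rw [Finset.mem_coe, mem_VV]
    refine ⟨_, ?_, rfl⟩
    rw [Finset.mem_range] at ht
    simp only [box, Finset.mem_product, Finset.mem_range]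
    refine ⟨ht, ?_, ?_⟩
    · have : t * j.1 ≤ m ^ 3 * m := Nat.mul_le_mul ht.le hu.le
      have e : m ^ 3 * m = m ^ 4 := by ring
      omega
    · have : t * j.1 ^ 2 ≤ m ^ 3 * m ^ 2 := Nat.mul_le_mul ht.le (Nat.pow_le_pow_left hu.le 2)
      have e : m ^ 3 * m ^ 2 = m ^ 5 := by ring
      omega
  have h1 := Set.ncard_le_ncard hsub
    (Set.Finite.subset (Finset.finite_toSet _) Set.inter_subset_left)
  rw [Set.ncard_coe_finset, Finset.card_image_of_injective _ hinj, Finset.card_range] at h1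
  exact h1

lemma card_richLines {d m : ℕ} (hd : 4 ≤ d) (hm : 2 ≤ m) :
    m ^ 10 ≤ (richLines (VV d m) (m ^ 3)).ncard := by
  classical
  have h2 : 2 ≤ m ^ 3 := hm.trans (Nat.le_self_pow (by norm_num) m)
  have hsub : (((Finset.range m ×ˢ Finset.range (m ^ 4) ×ˢ Finset.range (m ^ 5)).image (ln d) :
      Finset (AffineSubspace ℂ (Fin d → ℂ))) : Set (AffineSubspace ℂ (Fin d → ℂ)))
      ⊆ richLines (VV d m) (m ^ 3) := by
    intro L hL
    rw [Finset.mem_coe, Finset.mem_image] at hL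
    obtain ⟨j, hj, rfl⟩ := hL
    exact ln_rich hd hj
  have h1 := Set.ncard_le_ncard hsub (richLines_finite _ h2)
  rw [Set.ncard_coe_finset, Finset.card_image_of_injective _ (ln_injective hd)] at h1
  simp only [Finset.card_product, Finset.card_range] at h1
  have e : m * (m ^ 4 * m ^ 5) = m ^ 10 := by ring
  omega

end Pool.Agent.Q227.RL
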